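import Pool.Agent.Y52.SJ.Alm
import Pool.Agent.Y540.SJ.Witt
import Pool.Agent.Y43.SJ.SQ
import Pool.Agent.Y550.SJ.Cap2
import Pool.Agent.Y297.SJ.Loz
import Pool.Agent.Y171.SJ.MOL
import Pool.Agent.Y409.SJ.Tra
import Pool.Agent.Y67.SJ.SC
import Pool.Agent.Y43.SJ.PK
import Pool.Agent.Y907.SJ.Prd
import Pool.Agent.Y761.SJ.Shr
import Pool.Agent.Y988.SJ.Emb

/-!
# MP_548236_gt: the cylindrical capacity and the Gromov width are equivalent, with a constant
independent of the dimension, on the symmetric convex domains with an almost unconditional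
Lagrangian section (in particular on all unconditional convex domains)
-/

set_option autoImplicit false

namespace Pool.Agent.Results.MP_548236_gt.AlmostUnconditional

open Pool.Agent.Y52.SJ

/-- For every `A ≥ 1`, every `N = n + 1` and every convex domain `K = -K` of `ℝ^{2N}` such that the
unconditional hull of its `q`-projection is contained in `A` times its `q`-section, the
cylindrical capacity of `K` is at most `16 e A` times the Gromov width of `K`. -/
theorem result : ∀ (n : ℕ) (A : ℝ), 1 ≤ A →
    ∀ K : Set ((Fin (n + 1) → ℝ) × (Fin (n + 1) → ℝ)),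
    IsOpen K → Convex ℝ K → Bornology.IsBounded K → K.Nonempty → AlmostUncond A K →
    cylCapacity K ≤ ENNReal.ofReal (16 * Real.exp 1 * A) * gromovWidth K :=
  fun n A hA K h1 h2 h3 h4 h5 => almost Pool.Agent.Y540.SJ.main Pool.Agent.Y43.SJ.SQ.main
    Pool.Agent.Y550.SJ.main (Pool.Agent.Y171.SJ.main Pool.Agent.Y297.SJ.main)
    Pool.Agent.Y409.SJ.main Pool.Agent.Y907.SJ.main Pool.Agent.Y761.SJ.main
    Pool.Agent.Y988.SJ.main Pool.Agent.Y67.SJ.SC.main Pool.Agent.Y43.SJ.PK.main
    n A hA K h1 h2 h3 h4 h5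

end Pool.Agent.Results.MP_548236_gt.AlmostUnconditional
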