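import Pool.Agent.Y52.SJ.Anti
import Pool.Agent.Y540.SJ.Witt
import Pool.Agent.Y43.SJ.SQ
import Pool.Agent.Y550.SJ.Cap2
import Pool.Agent.Y297.SJ.Loz
import Pool.Agent.Y171.SJ.MOL
import Pool.Agent.Y409.SJ.Tra
import Pool.Agent.Y726.SJ.SEC
import Pool.Agent.Y686.SJ.Pol
import Pool.Agent.Y907.SJ.Prd
import Pool.Agent.Y761.SJ.Shr

/-!
# MP_548236_gt: the cylindrical capacity and the Gromov width are equivalent, with a constant
independent of the dimension, on the anti-blocking convex domains
-/

set_option autoImplicit false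

namespace Pool.Agent.Results.MP_548236_gt.AntiBlocking

open Pool.Agent.Y52.SJ

/-- For every `N = n + 1` and every anti-blocking convex domain `D` of `ℝ^{2N}` (contained in the
open positive orthant and closed under decreasing the coordinates) the cylindrical capacity of `D`
is at most `16 e` times the Gromov width of `D`. -/
theorem result : ∀ (n : ℕ) (D : Set ((Fin (n + 1) → ℝ) × (Fin (n + 1) → ℝ))),
    IsOpen D → Convex ℝ D → Bornology.IsBounded D → D.Nonempty → AntiBlock D →
    cylCapacity D ≤ ENNReal.ofReal (16 * Real.exp 1) * gromovWidth D :=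
  fun n D h1 h2 h3 h4 h5 => antiblock Pool.Agent.Y540.SJ.main Pool.Agent.Y43.SJ.SQ.main
    Pool.Agent.Y550.SJ.main (Pool.Agent.Y171.SJ.main Pool.Agent.Y297.SJ.main)
    Pool.Agent.Y409.SJ.main Pool.Agent.Y907.SJ.main Pool.Agent.Y761.SJ.main
    Pool.Agent.Y726.SJ.SEC.main Pool.Agent.Y686.SJ.main n D h1 h2 h3 h4 h5

end Pool.Agent.Results.MP_548236_gt.AntiBlocking
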