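import Pool.Agent.Y52.SJ.Abs2
import Pool.Agent.Y450.SJ.Max
import Pool.Agent.Y151.SJ.Nfp
import Pool.Agent.Y291.SJ.Var
import Pool.Agent.Y338.SJ.Hull
import Pool.Agent.Y832.SJ.Lag
import Pool.Agent.Y117.SJ.PAIR
import Pool.Agent.Y540.SJ.Witt
import Pool.Agent.Y369.SJ.Cap
import Pool.Agent.Y281.SJ.RND
import Pool.Agent.Y43.SJ.SQ
import Pool.Agent.Y550.SJ.Cap2

/-!
# MP_548236_gt: the cylindrical capacity of a convex domain in `ℝ^{2N}` is at most `4 N` times its
Gromov width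
-/

set_option autoImplicit false

namespace Pool.Agent.Results.MP_548236_gt.ConvexLinear

open Pool.Agent.Y52.SJ

/-- For every convex domain `K` of `ℝ^{2N}`, `N = n + 1`, the cylindrical capacity is at most
`4 N` times the Gromov width. -/
theorem result : ∀ (n : ℕ) (K : Set ((Fin (n + 1) → ℝ) × (Fin (n + 1) → ℝ))),
    IsOpen K → Convex ℝ K → Bornology.IsBounded K → K.Nonempty →
    cylCapacity K ≤ ENNReal.ofReal (4 * (n + 1)) * gromovWidth K :=
  fun n K h1 h2 h3 h4 => general' Pool.Agent.Y450.SJ.main Pool.Agent.Y151.SJ.Nfp.main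
    Pool.Agent.Y291.SJ.Var.main Pool.Agent.Y338.SJ.Hull.main Pool.Agent.Y832.SJ.main
    Pool.Agent.Y117.SJ.main Pool.Agent.Y281.SJ.RND.main Pool.Agent.Y540.SJ.main
    Pool.Agent.Y369.SJ.main Pool.Agent.Y43.SJ.SQ.main Pool.Agent.Y550.SJ.main n K h1 h2 h3 h4

end Pool.Agent.Results.MP_548236_gt.ConvexLinear
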